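import Mathlib

/-!
# 3-astral 4-configurations: definitions

The Euclidean plane is `ℂ`.
-/

namespace Pool.Agent.Q151.Astral

open ComplexConjugate

/-- A line of the Euclidean plane `ℂ`: `{z | Re (z * conj u) = d}` with unit normal `u`. -/
def IsLine (l : Set ℂ) : Prop :=
  ∃ (u : ℂ) (d : ℝ), ‖u‖ = 1 ∧ l = {z : ℂ | (z * conj u).re = d}

/-- A geometric configuration `(n_4)` with point set `P` and line set `L`. -/
structure IsConfig4 (n : ℕ) (P : Set ℂ) (L : Set (Set ℂ)) : Prop where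
  isLine : ∀ l ∈ L, IsLine l
  cardP : P.ncard = n
  cardL : L.ncard = n
  onLine : ∀ l ∈ L, (P ∩ l).ncard = 4
  through : ∀ p ∈ P, {l | l ∈ L ∧ p ∈ l}.ncard = 4

/-- The point-line incidence graph. -/
def levi (P : Set ℂ) (L : Set (Set ℂ)) : SimpleGraph (P ⊕ L) where
  Adj x y :=
    match x, y with
    | .inl p, .inr l => (p : ℂ) ∈ (l : Set ℂ)
    | .inr l, .inl p => (p : ℂ) ∈ (l : Set ℂ)
    | .inl _, .inl _ => False
    | .inr _, .inr _ => False
  symm := ⟨by
    rintro (p | l) (p' | l') h <;> exact h⟩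
  loopless := ⟨by
    rintro (p | l) h <;> exact h⟩

/-- `exp (2 π i / m)`. -/
noncomputable def om (m : ℕ) : ℂ := Complex.exp (2 * Real.pi * Complex.I / m)

/-- The `k`-th vertex of the regular `m`-gon with centre `O` and `0`-th vertex `O + c`. -/
noncomputable def vertex (m : ℕ) (O c : ℂ) (k : ℕ) : ℂ := O + c * om m ^ k

/-- The dihedral group of order `2m` (as a set of maps of the plane) with centre `O` which contains
the reflection `z ↦ O + u * conj (z - O)`: its elements are the rotations about `O` by multiples of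
`2 π / m` and their products with this reflection. -/
def dihedral (m : ℕ) (O u : ℂ) : Set (ℂ → ℂ) :=
  {g | ∃ k : ℕ, (g = fun z => O + om m ^ k * (z - O)) ∨
    (g = fun z => O + om m ^ k * (u * conj (z - O)))}

/-- `P 0, P 1, P 2` and `L 0, L 1, L 2` are the point orbits and the line orbits of a 3-astral
4-configuration with symbol `m#(s 0, t 0; s 1, t 1; s 2, t 2)`.  Indices are in `Fin 3`, that is
modulo 3. -/
structure IsThreeAstral (m : ℕ) (P : Fin 3 → Set ℂ) (L : Fin 3 → Set (Set ℂ))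
    (s t : Fin 3 → ℕ) : Prop where
  /-- it is a geometric configuration `(n_4)` with `n = 3m` -/
  config : IsConfig4 (3 * m) (⋃ j, P j) (⋃ j, L j)
  /-- all orbits have size `m` -/
  sizeP : ∀ j, (P j).ncard = m
  sizeL : ∀ j, (L j).ncard = m
  /-- a dihedral group `d_m` with centre `O` preserves every `P j` and every `L j`, and is
  transitive on each of them; each `P j` is the vertex set of a regular `m`-gon centred at `O`,
  and each line of `L j` contains a diagonal of span `s j` of `P j` and a diagonal of span `t j`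
  of `P (j+1)` -/
  symm : ∃ (O u : ℂ) (c : Fin 3 → ℂ), ‖u‖ = 1 ∧ (∀ j, c j ≠ 0) ∧
    (∀ g ∈ dihedral m O u, ∀ j, g '' P j = P j ∧ (Set.image g) '' L j = L j) ∧
    (∀ j, ∀ p ∈ P j, ∀ p' ∈ P j, ∃ g ∈ dihedral m O u, g p = p') ∧
    (∀ j, ∀ l ∈ L j, ∀ l' ∈ L j, ∃ g ∈ dihedral m O u, g '' l = l') ∧
    (∀ j, P j = Set.range (vertex m O (c j))) ∧
    (∀ j, ∀ l ∈ L j, ∃ k, vertex m O (c j) k ∈ l ∧ vertex m O (c j) (k + s j) ∈ l) ∧
    (∀ j, ∀ l ∈ L j, ∃ k, vertex m O (c (j + 1)) k ∈ l ∧ vertex m O (c (j + 1)) (k + t j) ∈ l)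
  /-- every line contains two points from each of two point orbits (and none of the third) -/
  lineP : ∀ j, ∀ l ∈ L j, (P j ∩ l).ncard = 2 ∧ (P (j + 1) ∩ l).ncard = 2 ∧ P (j + 2) ∩ l = ∅
  /-- every point lies on two lines from each of two line orbits (and none of the third) -/
  pointL : ∀ j, ∀ p ∈ P j, {l | l ∈ L j ∧ p ∈ l}.ncard = 2 ∧
    {l | l ∈ L (j + 2) ∧ p ∈ l}.ncard = 2 ∧ {l | l ∈ L (j + 1) ∧ p ∈ l} = ∅
  /-- the spans -/
  span_s : ∀ j, 1 ≤ s j ∧ 2 * s j < m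
  span_t : ∀ j, 1 ≤ t j ∧ 2 * t j < m

/-- The multiset `{s 0, s 1, s 2}` (of integers). -/
def ms (s : Fin 3 → ℕ) : Multiset ℤ := {(s 0 : ℤ), (s 1 : ℤ), (s 2 : ℤ)}

/-- `(S, T)` in this order is one of the four systematic families. -/
def FamilyOrd (m : ℤ) (S T : Multiset ℤ) : Prop :=
  ∃ p q r : ℤ, 0 < p ∧ 0 < q ∧ 0 < r ∧
    ((m = 2 * q ∧ S = {q - p, q - 2 * r, p} ∧ T = {q - 2 * p, q - r, r}) ∨
     (m = 3 * q ∧ S = {q + p, q - p, p} ∧ T = {q, q, 3 * p}) ∨
     (m = 6 * q ∧ S = {3 * q - p, r, p} ∧ T = {3 * q - 2 * p, 2 * q, r}) ∨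
     (m = 10 * q ∧ S = {5 * q - p, 2 * p, p} ∧ T = {|5 * q - 4 * p|, 4 * q, 2 * q}))

/-- The cohort `m#{S, T}` is systematic (`S` and `T` possibly interchanged). -/
def Systematic (m : ℤ) (S T : Multiset ℤ) : Prop := FamilyOrd m S T ∨ FamilyOrd m T S

/-- The cohort `m#{S, T}` is trivial. -/
def Trivial (S T : Multiset ℤ) : Prop := S = T

/-- The symbol `m#(s 0, t 0; s 1, t 1; s 2, t 2)` is the symbol of a connected sporadic 3-astral
4-configuration. -/
def IsConnectedSporadic (m : ℕ) (s t : Fin 3 → ℕ) : Prop :=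
  ∃ (P : Fin 3 → Set ℂ) (L : Fin 3 → Set (Set ℂ)),
    IsThreeAstral m P L s t ∧ (levi (⋃ j, P j) (⋃ j, L j)).Connected ∧
    ¬ Trivial (ms s) (ms t) ∧ ¬ Systematic m (ms s) (ms t)

end Pool.Agent.Q151.Astral
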