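import Mathlib
import Pool.Agent.Q151.Astral.Defs

namespace Pool.Agent.Q151.Astral

open ComplexConjugate

/-- `exp (i π a / m)` -/
noncomputable def ee (m : ℕ) (a : ℤ) : ℂ :=
  Complex.exp ((((a : ℝ) * Real.pi / m : ℝ) : ℂ) * Complex.I)

theorem ee_add (m : ℕ) (a b : ℤ) : ee m (a + b) = ee m a * ee m b := by
  unfold ee
  rw [← Complex.exp_add]
  congr 1
  push_cast
  ring

theorem ee_norm (m : ℕ) (a : ℤ) : ‖ee m a‖ = 1 := by
  unfold ee
  exact Complex.norm_exp_ofReal_mul_I _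

theorem ee_zero (m : ℕ) : ee m 0 = 1 := by
  unfold ee
  simp

theorem ee_re (m : ℕ) (a : ℤ) : (ee m a).re = Real.cos ((a : ℝ) * Real.pi / m) := by
  unfold ee
  exact Complex.exp_ofReal_mul_I_re _

theorem ee_conj (m : ℕ) (a : ℤ) : conj (ee m a) = ee m (-a) := by
  unfold ee
  rw [← Complex.exp_conj]
  congr 1
  simp
  ring

theorem ee_ne (m : ℕ) (a : ℤ) : ee m a ≠ 0 := by
  unfold ee
  exact Complex.exp_ne_zero _

theorem om_pow (m : ℕ) (k : ℕ) : om m ^ k = ee m (2 * k) := by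
  unfold om ee
  rw [← Complex.exp_nat_mul]
  congr 1
  push_cast
  ring

theorem ee_eq_iff {m : ℕ} (hm : 0 < m) (a b : ℤ) : ee m a = ee m b ↔ (2 * m : ℤ) ∣ a - b := by
  have hm' : (m : ℝ) ≠ 0 := by positivity
  have hmc : (m : ℂ) ≠ 0 := by exact_mod_cast hm.ne'
  unfold ee
  rw [Complex.exp_eq_exp_iff_exists_int]
  have hpi : (Real.pi : ℂ) ≠ 0 := by exact_mod_cast Real.pi_ne_zero
  constructor
  · rintro ⟨n, hn⟩
    refine ⟨n, ?_⟩
    have h1 : ((a : ℂ) * Real.pi / m) * Complex.I = ((b : ℂ) * Real.pi / m + 2 * n * Real.pi) * Complex.I := by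
      push_cast at hn
      rw [hn]; ring
    have h2 := mul_right_cancel₀ Complex.I_ne_zero h1
    have h3 : (a : ℂ) = b + 2 * m * n := by
      field_simp at h2
      linear_combination h2
    have h4 : (a : ℤ) = b + 2 * m * n := by exact_mod_cast h3
    linarith
  · rintro ⟨n, hn⟩
    refine ⟨n, ?_⟩
    have h4 : (a : ℤ) = b + 2 * m * n := by linarith
    have h3 : (a : ℂ) = b + 2 * m * n := by exact_mod_cast h4
    push_cast
    rw [h3]
    field_simp

theorem cos_eq_iff {m : ℕ} (hm : 0 < m) (a b : ℤ) :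
    Real.cos ((a : ℝ) * Real.pi / m) = Real.cos ((b : ℝ) * Real.pi / m) ↔
      (2 * m : ℤ) ∣ a - b ∨ (2 * m : ℤ) ∣ a + b := by
  have hm' : (m : ℝ) ≠ 0 := by positivity
  rw [Real.cos_eq_cos_iff]
  have hpi := Real.pi_ne_zero
  constructor
  · rintro ⟨k, hk | hk⟩
    · left
      refine ⟨-k, ?_⟩
      have : (b : ℝ) = a + 2 * m * k := by
        field_simp at hk
        linear_combination hk
      have h4 : (b : ℤ) = a + 2 * m * k := by exact_mod_cast this
      rw [h4]; ring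
    · right
      refine ⟨k, ?_⟩
      have : (b : ℝ) = 2 * m * k - a := by
        field_simp at hk
        linear_combination hk
      have h4 : (b : ℤ) = 2 * m * k - a := by exact_mod_cast this
      rw [h4]; ring
  · rintro (⟨k, hk⟩ | ⟨k, hk⟩)
    · refine ⟨-k, Or.inl ?_⟩
      have h4 : (b : ℤ) = a - 2 * m * k := by linarith
      have h5 : (b : ℝ) = a - 2 * m * k := by exact_mod_cast h4
      rw [h5]; field_simp; push_cast; ring
    · refine ⟨k, Or.inr ?_⟩
      have h4 : (b : ℤ) = 2 * m * k - a := by linarith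
      have h5 : (b : ℝ) = 2 * m * k - a := by exact_mod_cast h4
      rw [h5]; field_simp

/-- the point at distance `r` and angle `a π / m` -/
noncomputable def pt (m : ℕ) (r : ℝ) (a : ℤ) : ℂ := (r : ℂ) * ee m a

/-- the line at distance `d` with normal direction `b π / m` -/
def ln (m : ℕ) (d : ℝ) (b : ℤ) : Set ℂ := {z : ℂ | (z * conj (ee m b)).re = d}

theorem pt_mem_ln (m : ℕ) (r d : ℝ) (a b : ℤ) :
    pt m r a ∈ ln m d b ↔ r * Real.cos (((a - b : ℤ) : ℝ) * Real.pi / m) = d := by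
  unfold pt ln
  rw [Set.mem_ofPred_eq, ee_conj, mul_assoc, ← ee_add, Complex.re_ofReal_mul, ee_re]
  rw [sub_eq_add_neg]

theorem ln_isLine (m : ℕ) (d : ℝ) (b : ℤ) : IsLine (ln m d b) :=
  ⟨ee m b, d, ee_norm m b, rfl⟩

theorem pt_norm (m : ℕ) {r : ℝ} (hr : 0 < r) (a : ℤ) : ‖pt m r a‖ = r := by
  unfold pt
  rw [norm_mul, ee_norm, mul_one, Complex.norm_real, Real.norm_eq_abs, abs_of_pos hr]

theorem pt_eq_iff {m : ℕ} (hm : 0 < m) {r r' : ℝ} (hr : 0 < r) (hr' : 0 < r') (a a' : ℤ) :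
    pt m r a = pt m r' a' ↔ r = r' ∧ (2 * m : ℤ) ∣ a - a' := by
  constructor
  · intro h
    have h1 : r = r' := by
      rw [← pt_norm m hr a, ← pt_norm m hr' a', h]
    refine ⟨h1, ?_⟩
    subst h1
    rw [← ee_eq_iff hm]
    unfold pt at h
    have : (r : ℂ) ≠ 0 := by exact_mod_cast hr.ne'
    exact mul_left_cancel₀ this h
  · rintro ⟨rfl, h⟩
    unfold pt
    rw [(ee_eq_iff hm a a').2 h]

/-- the foot of the perpendicular determines the line -/
theorem ln_eq_iff {m : ℕ} (hm : 0 < m) {d d' : ℝ} (hd : 0 < d) (hd' : 0 < d') (b b' : ℤ) :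
    ln m d b = ln m d' b' ↔ d = d' ∧ (2 * m : ℤ) ∣ b - b' := by
  constructor
  · intro h
    have h1 : pt m d b ∈ ln m d' b' := by
      rw [← h, pt_mem_ln]
      simp
    have h2 : pt m d' b' ∈ ln m d b := by
      rw [h, pt_mem_ln]
      simp
    rw [pt_mem_ln] at h1 h2
    have h3 : d' ≤ d := by
      rw [← h1]
      have := Real.cos_le_one (((b - b' : ℤ) : ℝ) * Real.pi / m)
      nlinarith
    have h4 : d ≤ d' := by
      rw [← h2]
      have := Real.cos_le_one (((b' - b : ℤ) : ℝ) * Real.pi / m)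
      nlinarith
    have h5 : d = d' := le_antisymm h4 h3
    refine ⟨h5, ?_⟩
    subst h5
    have h6 : Real.cos (((b - b' : ℤ) : ℝ) * Real.pi / m) = 1 := by
      have : d * Real.cos (((b - b' : ℤ) : ℝ) * Real.pi / m) = d * 1 := by rw [h1, mul_one]
      exact mul_left_cancel₀ hd.ne' this
    have h7 : Real.cos (((b - b' : ℤ) : ℝ) * Real.pi / m) = Real.cos (((0 : ℤ) : ℝ) * Real.pi / m) := by
      rw [h6]; simp
    rw [cos_eq_iff hm] at h7
    simpa using h7
  · rintro ⟨rfl, h⟩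
    unfold ln
    rw [(ee_eq_iff hm b b').2 h]

/-- the point orbit -/
def PO (m : ℕ) (r : ℝ) (α : ℤ) : Set ℂ := {z | ∃ a : ℤ, (2 : ℤ) ∣ a - α ∧ z = pt m r a}

/-- the line orbit -/
def LO (m : ℕ) (d : ℝ) (β : ℤ) : Set (Set ℂ) := {l | ∃ b : ℤ, (2 : ℤ) ∣ b - β ∧ l = ln m d b}

theorem PO_eq_image {m : ℕ} (hm : 0 < m) {r : ℝ} (hr : 0 < r) (α : ℤ) :
    PO m r α = (fun k : ℕ => pt m r (α + 2 * k)) '' (Finset.range m : Set ℕ) := by
  ext z
  constructor
  · rintro ⟨a, ⟨c, hc⟩, rfl⟩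
    have h1 := Int.emod_nonneg c (by omega : (m : ℤ) ≠ 0)
    have h2 := Int.emod_lt_of_pos c (by omega : (0 : ℤ) < m)
    refine ⟨(c % m).toNat, ?_, ?_⟩
    · simp only [Finset.coe_range, Set.mem_Iio]
      omega
    · simp only
      rw [pt_eq_iff hm hr hr]
      refine ⟨rfl, ?_⟩
      have h3 : (((c % m).toNat : ℕ) : ℤ) = c % m := Int.toNat_of_nonneg h1
      rw [h3]
      have h4 := Int.emod_add_mul_ediv c m
      refine ⟨-(c / m), ?_⟩
      have : a = α + 2 * c := by linarith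
      rw [this]
      linear_combination 2 * h4
  · rintro ⟨k, -, rfl⟩
    exact ⟨α + 2 * k, ⟨k, by ring⟩, rfl⟩

theorem PO_ncard {m : ℕ} (hm : 0 < m) {r : ℝ} (hr : 0 < r) (α : ℤ) : (PO m r α).ncard = m := by
  rw [PO_eq_image hm hr, Set.InjOn.ncard_image, Set.ncard_coe_finset, Finset.card_range]
  intro k hk k' hk' h
  simp only [Finset.coe_range, Set.mem_Iio] at hk hk'
  simp only at h
  rw [pt_eq_iff hm hr hr] at h
  obtain ⟨c, hc⟩ := h.2
  have h1 : (k : ℤ) - k' = m * c := by linarith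
  have h2 : c = 0 := by
    by_contra hne
    rcases lt_or_gt_of_ne hne with h3 | h3
    · nlinarith
    · nlinarith
  rw [h2] at h1
  omega

theorem LO_eq_image {m : ℕ} (hm : 0 < m) {d : ℝ} (hd : 0 < d) (β : ℤ) :
    LO m d β = (fun k : ℕ => ln m d (β + 2 * k)) '' (Finset.range m : Set ℕ) := by
  ext z
  constructor
  · rintro ⟨a, ⟨c, hc⟩, rfl⟩
    have h1 := Int.emod_nonneg c (by omega : (m : ℤ) ≠ 0)
    have h2 := Int.emod_lt_of_pos c (by omega : (0 : ℤ) < m)
    refine ⟨(c % m).toNat, ?_, ?_⟩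
    · simp only [Finset.coe_range, Set.mem_Iio]
      omega
    · simp only
      rw [ln_eq_iff hm hd hd]
      refine ⟨rfl, ?_⟩
      have h3 : (((c % m).toNat : ℕ) : ℤ) = c % m := Int.toNat_of_nonneg h1
      rw [h3]
      have h4 := Int.emod_add_mul_ediv c m
      refine ⟨-(c / m), ?_⟩
      have : a = β + 2 * c := by linarith
      rw [this]
      linear_combination 2 * h4
  · rintro ⟨k, -, rfl⟩
    exact ⟨β + 2 * k, ⟨k, by ring⟩, rfl⟩

theorem LO_ncard {m : ℕ} (hm : 0 < m) {d : ℝ} (hd : 0 < d) (β : ℤ) : (LO m d β).ncard = m := by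
  rw [LO_eq_image hm hd, Set.InjOn.ncard_image, Set.ncard_coe_finset, Finset.card_range]
  intro k hk k' hk' h
  simp only [Finset.coe_range, Set.mem_Iio] at hk hk'
  simp only at h
  rw [ln_eq_iff hm hd hd] at h
  obtain ⟨c, hc⟩ := h.2
  have h1 : (k : ℤ) - k' = m * c := by linarith
  have h2 : c = 0 := by
    by_contra hne
    rcases lt_or_gt_of_ne hne with h3 | h3
    · nlinarith
    · nlinarith
  rw [h2] at h1
  omega

theorem not_dvd_small {m : ℕ} {s : ℕ} (h1 : 1 ≤ s) (h2 : 2 * s < m) : ¬ (2 * m : ℤ) ∣ 2 * s := by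
  rintro ⟨c, hc⟩
  have h3 : (s : ℤ) = m * c := by linarith
  have h4 : 0 < c := by
    by_contra hne
    push Not at hne
    nlinarith
  nlinarith

/-- a line of the orbit `LO d β` contains exactly two points of `PO r α` if `d = r cos (s π / m)` -/
theorem PO_inter_ln {m : ℕ} (hm : 0 < m) {r d : ℝ} (hr : 0 < r) {s : ℕ}
    (hd : d = r * Real.cos ((s : ℝ) * Real.pi / m)) {α b : ℤ} (hpar : (2 : ℤ) ∣ α + s - b) :
    PO m r α ∩ ln m d b = {pt m r (b - s), pt m r (b + s)} := by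
  ext z
  simp only [Set.mem_inter_iff, Set.mem_insert_iff, Set.mem_singleton_iff]
  constructor
  · rintro ⟨⟨a, ha, rfl⟩, hz⟩
    rw [pt_mem_ln, hd] at hz
    have h1 := mul_left_cancel₀ hr.ne' hz
    have h2 : Real.cos (((a - b : ℤ) : ℝ) * Real.pi / m) = Real.cos (((s : ℤ) : ℝ) * Real.pi / m) := by
      rw [h1]; norm_cast
    rw [cos_eq_iff hm] at h2
    rw [pt_eq_iff hm hr hr, pt_eq_iff hm hr hr]
    rcases h2 with h2 | h2
    · right
      exact ⟨rfl, by convert h2 using 1; ring⟩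
    · left
      exact ⟨rfl, by convert h2 using 1; ring⟩
  · rintro (rfl | rfl)
    · refine ⟨⟨b - s, by omega, rfl⟩, ?_⟩
      rw [pt_mem_ln, hd]
      have : Real.cos (((b - s - b : ℤ) : ℝ) * Real.pi / m) = Real.cos (((s : ℤ) : ℝ) * Real.pi / m) := by
        rw [cos_eq_iff hm]
        right
        exact ⟨0, by ring⟩
      rw [this]
      norm_cast
    · refine ⟨⟨b + s, by omega, rfl⟩, ?_⟩
      rw [pt_mem_ln, hd]
      have : Real.cos (((b + s - b : ℤ) : ℝ) * Real.pi / m) = Real.cos (((s : ℤ) : ℝ) * Real.pi / m) := by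
        rw [cos_eq_iff hm]
        left
        exact ⟨0, by ring⟩
      rw [this]
      norm_cast

theorem PO_inter_ln_ncard {m : ℕ} (hm : 0 < m) {r d : ℝ} (hr : 0 < r) {s : ℕ}
    (hs1 : 1 ≤ s) (hs2 : 2 * s < m)
    (hd : d = r * Real.cos ((s : ℝ) * Real.pi / m)) {α b : ℤ} (hpar : (2 : ℤ) ∣ α + s - b) :
    (PO m r α ∩ ln m d b).ncard = 2 := by
  rw [PO_inter_ln hm hr hd hpar, Set.ncard_pair]
  intro h
  rw [pt_eq_iff hm hr hr] at h
  apply not_dvd_small hs1 hs2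
  obtain ⟨c, hc⟩ := h.2
  exact ⟨-c, by linarith⟩

/-- a point of the orbit lies on exactly two lines of the line orbit -/
theorem LO_through {m : ℕ} (hm : 0 < m) {r d : ℝ} (hr : 0 < r) (hdpos : 0 < d) {s : ℕ}
    (hd : d = r * Real.cos ((s : ℝ) * Real.pi / m)) {β a : ℤ} (hpar : (2 : ℤ) ∣ a + s - β) :
    {l | l ∈ LO m d β ∧ pt m r a ∈ l} = {ln m d (a - s), ln m d (a + s)} := by
  ext l
  simp only [Set.mem_ofPred_eq, Set.mem_insert_iff, Set.mem_singleton_iff]
  constructor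
  · rintro ⟨⟨b, hb, rfl⟩, hz⟩
    rw [pt_mem_ln, hd] at hz
    have h1 := mul_left_cancel₀ hr.ne' hz
    have h2 : Real.cos (((a - b : ℤ) : ℝ) * Real.pi / m) = Real.cos (((s : ℤ) : ℝ) * Real.pi / m) := by
      rw [h1]; norm_cast
    rw [cos_eq_iff hm] at h2
    rw [ln_eq_iff hm hdpos hdpos, ln_eq_iff hm hdpos hdpos]
    rcases h2 with h2 | h2
    · left
      obtain ⟨c, hc⟩ := h2
      exact ⟨rfl, ⟨-c, by linarith⟩⟩
    · right
      obtain ⟨c, hc⟩ := h2
      exact ⟨rfl, ⟨-c, by linarith⟩⟩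
  · rintro (rfl | rfl)
    · refine ⟨⟨a - s, by omega, rfl⟩, ?_⟩
      rw [pt_mem_ln, hd]
      have : Real.cos (((a - (a - s) : ℤ) : ℝ) * Real.pi / m) = Real.cos (((s : ℤ) : ℝ) * Real.pi / m) := by
        rw [cos_eq_iff hm]
        left
        exact ⟨0, by ring⟩
      rw [this]
      norm_cast
    · refine ⟨⟨a + s, by omega, rfl⟩, ?_⟩
      rw [pt_mem_ln, hd]
      have : Real.cos (((a - (a + s) : ℤ) : ℝ) * Real.pi / m) = Real.cos (((s : ℤ) : ℝ) * Real.pi / m) := by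
        rw [cos_eq_iff hm]
        right
        exact ⟨0, by ring⟩
      rw [this]
      norm_cast

theorem LO_through_ncard {m : ℕ} (hm : 0 < m) {r d : ℝ} (hr : 0 < r) (hdpos : 0 < d) {s : ℕ}
    (hs1 : 1 ≤ s) (hs2 : 2 * s < m)
    (hd : d = r * Real.cos ((s : ℝ) * Real.pi / m)) {β a : ℤ} (hpar : (2 : ℤ) ∣ a + s - β) :
    {l | l ∈ LO m d β ∧ pt m r a ∈ l}.ncard = 2 := by
  rw [LO_through hm hr hdpos hd hpar, Set.ncard_pair]
  intro h
  rw [ln_eq_iff hm hdpos hdpos] at h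
  apply not_dvd_small hs1 hs2
  obtain ⟨c, hc⟩ := h.2
  exact ⟨-c, by linarith⟩

end Pool.Agent.Q151.Astral
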