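import Mathlib
import Pool.Agent.Q151.Astral.Geo

namespace Pool.Agent.Q151.Astral

open ComplexConjugate

theorem iUnion_fin3 {X : Type*} (f : Fin 3 → Set X) (j : Fin 3) :
    (⋃ i, f i) = f j ∪ f (j + 1) ∪ f (j + 2) := by
  have h : ∀ i j : Fin 3, i = j ∨ i = j + 1 ∨ i = j + 2 := by decide
  ext x
  simp only [Set.mem_iUnion, Set.mem_union]
  constructor
  · rintro ⟨i, hi⟩
    rcases h i j with rfl | rfl | rfl
    · exact Or.inl (Or.inl hi)
    · exact Or.inl (Or.inr hi)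
    · exact Or.inr hi
  · rintro ((h | h) | h)
    · exact ⟨_, h⟩
    · exact ⟨_, h⟩
    · exact ⟨_, h⟩

/-! ### the dihedral group -/

theorem rot_pt (m : ℕ) (k : ℕ) (r : ℝ) (a : ℤ) :
    (0 : ℂ) + om m ^ k * (pt m r a - 0) = pt m r (a + 2 * k) := by
  rw [om_pow, sub_zero, zero_add]
  unfold pt
  rw [ee_add]
  ring

theorem refl_pt (m : ℕ) (k : ℕ) (r : ℝ) (a : ℤ) :
    (0 : ℂ) + om m ^ k * (1 * conj (pt m r a - 0)) = pt m r (2 * k - a) := by
  rw [om_pow, sub_zero, zero_add, one_mul]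
  unfold pt
  rw [map_mul, Complex.conj_ofReal, ee_conj, sub_eq_add_neg, ee_add]
  ring

theorem ee_mul_neg (m : ℕ) (a : ℤ) : ee m a * ee m (-a) = 1 := by
  rw [← ee_add, add_neg_cancel, ee_zero]

theorem rot_ln (m : ℕ) (k : ℕ) (d : ℝ) (b : ℤ) :
    (fun z : ℂ => (0 : ℂ) + om m ^ k * (z - 0)) '' ln m d b = ln m d (b + 2 * k) := by
  ext w
  simp only [Set.mem_image]
  constructor
  · rintro ⟨z, hz, rfl⟩
    unfold ln at hz ⊢
    rw [Set.mem_ofPred_eq] at hz ⊢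
    rw [om_pow, sub_zero, zero_add, ee_add, map_mul, ee_conj m (2 * k)]
    rw [show ee m (2 * k) * z * (conj (ee m b) * ee m (-(2 * k))) =
      (ee m (2 * k) * ee m (-(2 * k))) * (z * conj (ee m b)) by ring, ee_mul_neg, one_mul]
    exact hz
  · intro hw
    refine ⟨ee m (-(2 * k)) * w, ?_, ?_⟩
    · unfold ln at hw ⊢
      rw [Set.mem_ofPred_eq] at hw ⊢
      rw [ee_add, map_mul, ee_conj m (2 * k)] at hw
      rw [← hw]
      congr 1
      ring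
    · rw [om_pow, sub_zero, zero_add, ← mul_assoc, ee_mul_neg, one_mul]

theorem refl_ln (m : ℕ) (k : ℕ) (d : ℝ) (b : ℤ) :
    (fun z : ℂ => (0 : ℂ) + om m ^ k * (1 * conj (z - 0))) '' ln m d b = ln m d (2 * k - b) := by
  ext w
  simp only [Set.mem_image]
  constructor
  · rintro ⟨z, hz, rfl⟩
    unfold ln at hz ⊢
    rw [Set.mem_ofPred_eq] at hz ⊢
    rw [om_pow, sub_zero, zero_add, one_mul, sub_eq_add_neg, ee_add, map_mul, ee_conj m (2 * k),
      ee_conj m (-b), neg_neg]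
    rw [show ee m (2 * k) * conj z * (ee m (-(2 * k)) * ee m b) =
      (ee m (2 * k) * ee m (-(2 * k))) * (conj z * ee m b) by ring, ee_mul_neg, one_mul]
    rw [← hz, ← Complex.conj_re, map_mul, Complex.conj_conj]
  · intro hw
    refine ⟨conj (ee m (-(2 * k)) * w), ?_, ?_⟩
    · unfold ln at hw ⊢
      rw [Set.mem_ofPred_eq] at hw ⊢
      rw [sub_eq_add_neg, ee_add, map_mul, ee_conj m (2 * k), ee_conj m (-b), neg_neg] at hw
      rw [← hw, ← Complex.conj_re, ← map_mul, Complex.conj_conj]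
      congr 1
      ring
    · rw [om_pow, sub_zero, zero_add, Complex.conj_conj, one_mul, ← mul_assoc, ee_mul_neg, one_mul]

theorem rot_PO (m : ℕ) (k : ℕ) (r : ℝ) (α : ℤ) :
    (fun z : ℂ => (0 : ℂ) + om m ^ k * (z - 0)) '' PO m r α = PO m r α := by
  ext w
  simp only [Set.mem_image]
  constructor
  · rintro ⟨z, ⟨a, ha, rfl⟩, rfl⟩
    rw [rot_pt]
    exact ⟨_, by omega, rfl⟩
  · rintro ⟨a, ha, rfl⟩
    refine ⟨pt m r (a - 2 * k), ⟨_, by omega, rfl⟩, ?_⟩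
    rw [rot_pt]
    congr 1
    ring

theorem refl_PO (m : ℕ) (k : ℕ) (r : ℝ) (α : ℤ) :
    (fun z : ℂ => (0 : ℂ) + om m ^ k * (1 * conj (z - 0))) '' PO m r α = PO m r α := by
  ext w
  simp only [Set.mem_image]
  constructor
  · rintro ⟨z, ⟨a, ha, rfl⟩, rfl⟩
    rw [refl_pt]
    exact ⟨_, by omega, rfl⟩
  · rintro ⟨a, ha, rfl⟩
    refine ⟨pt m r (2 * k - a), ⟨_, by omega, rfl⟩, ?_⟩
    rw [refl_pt]
    congr 1
    ring

theorem rot_LO (m : ℕ) (k : ℕ) (r : ℝ) (α : ℤ) :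
    (Set.image (fun z : ℂ => (0 : ℂ) + om m ^ k * (z - 0))) '' LO m r α = LO m r α := by
  ext w
  simp only [Set.mem_image]
  constructor
  · rintro ⟨z, ⟨a, ha, rfl⟩, rfl⟩
    rw [rot_ln]
    exact ⟨_, by omega, rfl⟩
  · rintro ⟨a, ha, rfl⟩
    refine ⟨ln m r (a - 2 * k), ⟨_, by omega, rfl⟩, ?_⟩
    rw [rot_ln]
    congr 1
    ring

theorem refl_LO (m : ℕ) (k : ℕ) (r : ℝ) (α : ℤ) :
    (Set.image (fun z : ℂ => (0 : ℂ) + om m ^ k * (1 * conj (z - 0)))) '' LO m r α = LO m r α := by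
  ext w
  simp only [Set.mem_image]
  constructor
  · rintro ⟨z, ⟨a, ha, rfl⟩, rfl⟩
    rw [refl_ln]
    exact ⟨_, by omega, rfl⟩
  · rintro ⟨a, ha, rfl⟩
    refine ⟨ln m r (2 * k - a), ⟨_, by omega, rfl⟩, ?_⟩
    rw [refl_ln]
    congr 1
    ring

theorem vertex_eq (m : ℕ) (r : ℝ) (α : ℤ) (k : ℕ) :
    vertex m 0 (pt m r α) k = pt m r (α + 2 * k) := by
  unfold vertex pt
  rw [om_pow, ee_add]
  ring

theorem range_vertex {m : ℕ} (hm : 0 < m) {r : ℝ} (hr : 0 < r) (α : ℤ) :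
    PO m r α = Set.range (vertex m 0 (pt m r α)) := by
  ext z
  constructor
  · intro hz
    rw [PO_eq_image hm hr] at hz
    obtain ⟨k, -, rfl⟩ := hz
    exact ⟨k, vertex_eq m r α k⟩
  · rintro ⟨k, rfl⟩
    rw [vertex_eq]
    exact ⟨_, ⟨k, by ring⟩, rfl⟩

/-- a natural index for a vertex -/
theorem exists_vertex {m : ℕ} (hm : 0 < m) {r : ℝ} (hr : 0 < r) {α a : ℤ} (ha : (2 : ℤ) ∣ a - α)
    (s : ℕ) : ∃ k : ℕ, vertex m 0 (pt m r α) k = pt m r a ∧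
      vertex m 0 (pt m r α) (k + s) = pt m r (a + 2 * s) := by
  have h1 : pt m r a ∈ PO m r α := ⟨a, ha, rfl⟩
  rw [PO_eq_image hm hr] at h1
  obtain ⟨k, -, hk⟩ := h1
  simp only at hk
  refine ⟨k, ?_, ?_⟩
  · rw [vertex_eq, hk]
  · rw [vertex_eq, pt_eq_iff hm hr hr]
    rw [pt_eq_iff hm hr hr] at hk
    refine ⟨rfl, ?_⟩
    obtain ⟨c, hc⟩ := hk.2
    exact ⟨c, by push_cast; linarith⟩

theorem PO_disjoint {m : ℕ} (hm : 0 < m) {r r' : ℝ} (hr : 0 < r) (hr' : 0 < r') (h : r ≠ r')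
    (α α' : ℤ) : Disjoint (PO m r α) (PO m r' α') := by
  rw [Set.disjoint_left]
  rintro z ⟨a, -, rfl⟩ ⟨a', -, h2⟩
  rw [pt_eq_iff hm hr hr'] at h2
  exact h h2.1

theorem LO_disjoint {m : ℕ} (hm : 0 < m) {r r' : ℝ} (hr : 0 < r) (hr' : 0 < r') (h : r ≠ r')
    (α α' : ℤ) : Disjoint (LO m r α) (LO m r' α') := by
  rw [Set.disjoint_left]
  rintro z ⟨a, -, rfl⟩ ⟨a', -, h2⟩
  rw [ln_eq_iff hm hr hr'] at h2
  exact h h2.1

theorem finite_of_ncard_pos' {X : Type*} {A : Set X} {n : ℕ} (h : A.ncard = n) (hn : 0 < n) :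
    A.Finite := Set.finite_of_ncard_pos (by omega)

theorem ncard_three {X : Type*} {A B C : Set X} {a b c : ℕ} (hA : A.ncard = a) (hB : B.ncard = b)
    (hC : C.ncard = c) (fA : A.Finite) (fB : B.Finite) (fC : C.Finite)
    (h1 : Disjoint A B) (h2 : Disjoint A C) (h3 : Disjoint B C) :
    (A ∪ B ∪ C).ncard = a + b + c := by
  rw [Set.ncard_union_eq (Set.disjoint_union_left.2 ⟨h2, h3⟩) (fA.union fB) fC,
    Set.ncard_union_eq h1 fA fB, hA, hB, hC]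

theorem generic {m : ℕ} (hm : 0 < m) {R d : Fin 3 → ℝ} {α β : Fin 3 → ℤ} {s t : Fin 3 → ℕ}
    (hR : ∀ j, 0 < R j) (hd : ∀ j, 0 < d j) (hRi : Function.Injective R)
    (hdi : Function.Injective d)
    (hs : ∀ j, 1 ≤ s j ∧ 2 * s j < m) (ht : ∀ j, 1 ≤ t j ∧ 2 * t j < m)
    (h1 : ∀ j, d j = R j * Real.cos ((s j : ℝ) * Real.pi / m))
    (h2 : ∀ j, d j = R (j + 1) * Real.cos ((t j : ℝ) * Real.pi / m))
    (p1 : ∀ j, (2 : ℤ) ∣ α j + s j - β j) (p2 : ∀ j, (2 : ℤ) ∣ α (j + 1) + t j - β j)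
    (h3 : ∀ j, ∀ x : ℤ, R (j + 2) * Real.cos ((x : ℝ) * Real.pi / m) ≠ d j) :
    IsThreeAstral m (fun j => PO m (R j) (α j)) (fun j => LO m (d j) (β j)) s t := by
  have hne1 : ∀ j : Fin 3, j ≠ j + 1 := by decide
  have hne2 : ∀ j : Fin 3, j ≠ j + 2 := by decide
  have hne3 : ∀ j : Fin 3, j + 1 ≠ j + 2 := by decide
  have h21 : ∀ j : Fin 3, j + 2 + 1 = j := by decide
  have h12 : ∀ j : Fin 3, j + 1 + 2 = j := by decide
  have hPsize : ∀ j, (PO m (R j) (α j)).ncard = m := fun j => PO_ncard hm (hR j) _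
  have hLsize : ∀ j, (LO m (d j) (β j)).ncard = m := fun j => LO_ncard hm (hd j) _
  have hlineP : ∀ j, ∀ l ∈ LO m (d j) (β j), (PO m (R j) (α j) ∩ l).ncard = 2 ∧
      (PO m (R (j + 1)) (α (j + 1)) ∩ l).ncard = 2 ∧ PO m (R (j + 2)) (α (j + 2)) ∩ l = ∅ := by
    rintro j l ⟨b, hb, rfl⟩
    have q1 := p1 j
    have q2 := p2 j
    refine ⟨PO_inter_ln_ncard hm (hR j) (hs j).1 (hs j).2 (h1 j) (by omega),
      PO_inter_ln_ncard hm (hR (j + 1)) (ht j).1 (ht j).2 (h2 j) (by omega), ?_⟩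
    rw [Set.eq_empty_iff_forall_notMem]
    rintro z ⟨⟨a, ha, rfl⟩, hz⟩
    rw [pt_mem_ln] at hz
    exact h3 j _ hz
  have hpointL : ∀ j, ∀ p ∈ PO m (R j) (α j), {l | l ∈ LO m (d j) (β j) ∧ p ∈ l}.ncard = 2 ∧
    {l | l ∈ LO m (d (j + 2)) (β (j + 2)) ∧ p ∈ l}.ncard = 2 ∧
    {l | l ∈ LO m (d (j + 1)) (β (j + 1)) ∧ p ∈ l} = ∅ := by
    rintro j p ⟨a, ha, rfl⟩
    have q1 := p1 j
    have q2 := p2 (j + 2)
    have r2 := h2 (j + 2)
    have r3 := h3 (j + 1)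
    rw [h21] at q2 r2
    rw [h12] at r3
    refine ⟨LO_through_ncard hm (hR j) (hd j) (hs j).1 (hs j).2 (h1 j) (by omega),
      LO_through_ncard hm (hR j) (hd (j + 2)) (ht (j + 2)).1 (ht (j + 2)).2 r2 (by omega), ?_⟩
    rw [Set.eq_empty_iff_forall_notMem]
    rintro l ⟨⟨b, hb, rfl⟩, hz⟩
    rw [pt_mem_ln] at hz
    exact r3 _ hz
  have hPd : ∀ i j : Fin 3, i ≠ j → Disjoint (PO m (R i) (α i)) (PO m (R j) (α j)) :=
    fun i j hij => PO_disjoint hm (hR i) (hR j) (fun h => hij (hRi h)) _ _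
  have hLd : ∀ i j : Fin 3, i ≠ j → Disjoint (LO m (d i) (β i)) (LO m (d j) (β j)) :=
    fun i j hij => LO_disjoint hm (hd i) (hd j) (fun h => hij (hdi h)) _ _
  have hPf : ∀ j, (PO m (R j) (α j)).Finite := fun j => finite_of_ncard_pos' (hPsize j) hm
  have hLf : ∀ j, (LO m (d j) (β j)).Finite := fun j => finite_of_ncard_pos' (hLsize j) hm
  refine ⟨⟨?_, ?_, ?_, ?_, ?_⟩, hPsize, hLsize, ?_, hlineP, hpointL, hs, ht⟩
  · -- lines
    intro l hl
    obtain ⟨j, b, -, rfl⟩ := Set.mem_iUnion.1 hl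
    exact ln_isLine _ _ _
  · rw [iUnion_fin3 _ 0, ncard_three (hPsize _) (hPsize _) (hPsize _) (hPf _) (hPf _) (hPf _)
      (hPd _ _ (by decide)) (hPd _ _ (by decide)) (hPd _ _ (by decide))]
    ring
  · rw [iUnion_fin3 _ 0, ncard_three (hLsize _) (hLsize _) (hLsize _) (hLf _) (hLf _) (hLf _)
      (hLd _ _ (by decide)) (hLd _ _ (by decide)) (hLd _ _ (by decide))]
    ring
  · intro l hl
    obtain ⟨j, hj⟩ := Set.mem_iUnion.1 hl
    rw [iUnion_fin3 _ j, Set.union_inter_distrib_right, Set.union_inter_distrib_right]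
    obtain ⟨a1, a2, a3⟩ := hlineP j l hj
    rw [a3, Set.union_empty, Set.ncard_union_eq _ ((hPf j).inter_of_left _)
      ((hPf (j + 1)).inter_of_left _), a1, a2]
    exact (hPd j (j + 1) (hne1 j)).mono Set.inter_subset_left Set.inter_subset_left
  · intro p hp
    obtain ⟨j, hj⟩ := Set.mem_iUnion.1 hp
    obtain ⟨a1, a2, a3⟩ := hpointL j p hj
    have : {l | l ∈ (⋃ i, LO m (d i) (β i)) ∧ p ∈ l} =
        {l | l ∈ LO m (d j) (β j) ∧ p ∈ l} ∪ {l | l ∈ LO m (d (j + 2)) (β (j + 2)) ∧ p ∈ l} := by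
      rw [iUnion_fin3 _ j]
      ext l
      simp only [Set.mem_union, Set.mem_ofPred_eq]
      constructor
      · rintro ⟨(h | h) | h, hp⟩
        · exact Or.inl ⟨h, hp⟩
        · exfalso
          have : l ∈ {l | l ∈ LO m (d (j + 1)) (β (j + 1)) ∧ p ∈ l} := ⟨h, hp⟩
          rw [a3] at this
          exact this
        · exact Or.inr ⟨h, hp⟩
      · rintro (⟨h, hp⟩ | ⟨h, hp⟩)
        · exact ⟨Or.inl (Or.inl h), hp⟩
        · exact ⟨Or.inr h, hp⟩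
    rw [this, Set.ncard_union_eq _ ((hLf j).subset (fun l hl => hl.1))
      ((hLf (j + 2)).subset (fun l hl => hl.1)), a1, a2]
    exact (hLd j (j + 2) (hne2 j)).mono (fun l hl => hl.1) (fun l hl => hl.1)
  · -- symmetry
    refine ⟨0, 1, fun j => pt m (R j) (α j), by simp, ?_, ?_, ?_, ?_, ?_, ?_, ?_⟩
    · intro j h
      have := pt_norm m (hR j) (α j)
      simp only at h
      rw [h, norm_zero] at this
      exact (hR j).ne this
    · rintro g ⟨k, rfl | rfl⟩ j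
      · exact ⟨rot_PO m k _ _, rot_LO m k _ _⟩
      · exact ⟨refl_PO m k _ _, refl_LO m k _ _⟩
    · rintro j p ⟨a, ha, rfl⟩ p' ⟨a', ha', rfl⟩
      obtain ⟨k, hk1, -⟩ := exists_vertex (α := 0) (a := a' - a) hm (hR j) (by omega) 0
      refine ⟨_, ⟨k, Or.inl rfl⟩, ?_⟩
      rw [rot_pt, pt_eq_iff hm (hR j) (hR j)]
      rw [vertex_eq, pt_eq_iff hm (hR j) (hR j)] at hk1
      refine ⟨rfl, ?_⟩
      convert hk1.2 using 1
      ring
    · rintro j p ⟨a, ha, rfl⟩ p' ⟨a', ha', rfl⟩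
      obtain ⟨k, hk1, -⟩ := exists_vertex (α := 0) (a := a' - a) hm (hR j) (by omega) 0
      refine ⟨_, ⟨k, Or.inl rfl⟩, ?_⟩
      rw [rot_ln, ln_eq_iff hm (hd j) (hd j)]
      rw [vertex_eq, pt_eq_iff hm (hR j) (hR j)] at hk1
      refine ⟨rfl, ?_⟩
      convert hk1.2 using 1
      ring
    · intro j
      exact range_vertex hm (hR j) _
    · rintro j l ⟨b, hb, rfl⟩
      have q1 := p1 j
      obtain ⟨k, hk1, hk2⟩ := exists_vertex (α := α j) (a := b - s j) hm (hR j) (by omega) (s j)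
      refine ⟨k, ?_, ?_⟩
      · simp only
        rw [hk1]
        have := PO_inter_ln hm (hR j) (h1 j) (α := α j) (b := b) (by omega)
        have h4 : pt m (R j) (b - s j) ∈ PO m (R j) (α j) ∩ ln m (d j) b := by
          rw [this]; left; rfl
        exact h4.2
      · simp only
        rw [hk2]
        have := PO_inter_ln hm (hR j) (h1 j) (α := α j) (b := b) (by omega)
        have h4 : pt m (R j) (b + s j) ∈ PO m (R j) (α j) ∩ ln m (d j) b := by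
          rw [this]; right; rfl
        convert h4.2 using 2
        ring
    · rintro j l ⟨b, hb, rfl⟩
      have q1 := p2 j
      obtain ⟨k, hk1, hk2⟩ := exists_vertex (α := α (j + 1)) (a := b - t j) hm (hR (j + 1))
        (by omega) (t j)
      refine ⟨k, ?_, ?_⟩
      · simp only
        rw [hk1]
        have := PO_inter_ln hm (hR (j + 1)) (h2 j) (α := α (j + 1)) (b := b) (by omega)
        have h4 : pt m (R (j + 1)) (b - t j) ∈ PO m (R (j + 1)) (α (j + 1)) ∩ ln m (d j) b := by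
          rw [this]; left; rfl
        exact h4.2
      · simp only
        rw [hk2]
        have := PO_inter_ln hm (hR (j + 1)) (h2 j) (α := α (j + 1)) (b := b) (by omega)
        have h4 : pt m (R (j + 1)) (b + t j) ∈ PO m (R (j + 1)) (α (j + 1)) ∩ ln m (d j) b := by
          rw [this]; right; rfl
        convert h4.2 using 2
        ring

/-- connectedness of the incidence graph when `s 0 = 1` -/
theorem connected_of {m : ℕ} (hm : 0 < m) {R d : Fin 3 → ℝ} {α β : Fin 3 → ℤ} {s t : Fin 3 → ℕ}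
    (hR : ∀ j, 0 < R j)
    (h1 : ∀ j, d j = R j * Real.cos ((s j : ℝ) * Real.pi / m))
    (p1 : ∀ j, (2 : ℤ) ∣ α j + s j - β j) (hs0 : s 0 = 1)
    (hA : IsThreeAstral m (fun j => PO m (R j) (α j)) (fun j => LO m (d j) (β j)) s t) :
    (levi (⋃ j, PO m (R j) (α j)) (⋃ j, LO m (d j) (β j))).Connected := by
  set P : Set ℂ := ⋃ j, PO m (R j) (α j) with hP
  set L : Set (Set ℂ) := ⋃ j, LO m (d j) (β j) with hL
  have hmemP : ∀ j, ∀ p ∈ PO m (R j) (α j), p ∈ P := fun j p hp => Set.mem_iUnion.2 ⟨j, hp⟩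
  have hmemL : ∀ j, ∀ p ∈ LO m (d j) (β j), p ∈ L := fun j p hp => Set.mem_iUnion.2 ⟨j, hp⟩
  have hadj : ∀ (p : P) (l : L), (p : ℂ) ∈ (l : Set ℂ) → (levi P L).Adj (.inl p) (.inr l) :=
    fun p l h => h
  have q1 := p1 0
  rw [hs0] at q1
  -- base point
  have hb0 : pt m (R 0) (α 0) ∈ PO m (R 0) (α 0) := ⟨α 0, ⟨0, by ring⟩, rfl⟩
  set x0 : P ⊕ L := .inl ⟨pt m (R 0) (α 0), hmemP 0 _ hb0⟩ with hx0
  -- points of the orbit 0 are reachable
  have hreach0 : ∀ k : ℕ, ∀ h : pt m (R 0) (α 0 + 2 * k) ∈ P,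
      (levi P L).Reachable x0 (.inl ⟨pt m (R 0) (α 0 + 2 * k), h⟩) := by
    intro k
    induction k with
    | zero =>
      intro h
      have : (⟨pt m (R 0) (α 0 + 2 * ((0 : ℕ) : ℤ)), h⟩ : P) = ⟨pt m (R 0) (α 0), hmemP 0 _ hb0⟩ := by
        apply Subtype.ext
        simp
      rw [this]
    | succ k ih =>
      intro h
      have hk : pt m (R 0) (α 0 + 2 * k) ∈ P := hmemP 0 _ ⟨_, ⟨k, by ring⟩, rfl⟩
      have hl : ln m (d 0) (α 0 + 2 * k + 1) ∈ L := hmemL 0 _ ⟨_, by omega, rfl⟩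
      have e := PO_inter_ln hm (hR 0) (h1 0) (α := α 0) (b := α 0 + 2 * k + 1)
        (by rw [hs0]; push_cast; omega)
      rw [hs0] at e
      have m1 : pt m (R 0) (α 0 + 2 * k) ∈ ln m (d 0) (α 0 + 2 * k + 1) := by
        have : pt m (R 0) (α 0 + 2 * k) ∈ PO m (R 0) (α 0) ∩ ln m (d 0) (α 0 + 2 * k + 1) := by
          rw [e]
          left
          congr 1
          push_cast
          ring
        exact this.2
      have m2 : pt m (R 0) (α 0 + 2 * ((k + 1 : ℕ) : ℤ)) ∈ ln m (d 0) (α 0 + 2 * k + 1) := by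
        have : pt m (R 0) (α 0 + 2 * ((k + 1 : ℕ) : ℤ)) ∈
            PO m (R 0) (α 0) ∩ ln m (d 0) (α 0 + 2 * k + 1) := by
          rw [e]
          right
          rw [Set.mem_singleton_iff]
          congr 1
          push_cast
          ring
        exact this.2
      exact ((ih hk).trans (hadj ⟨_, hk⟩ ⟨_, hl⟩ m1).reachable).trans
        (hadj ⟨_, h⟩ ⟨_, hl⟩ m2).symm.reachable
  have hr0 : ∀ p : ℂ, p ∈ PO m (R 0) (α 0) → ∀ h : p ∈ P, (levi P L).Reachable x0 (.inl ⟨p, h⟩) := by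
    intro p hp h
    rw [PO_eq_image hm (hR 0)] at hp
    obtain ⟨k, -, rfl⟩ := hp
    exact hreach0 k h
  -- lines of the orbits 0 and 2 meet the orbit 0
  have hex : ∀ {A : Set ℂ}, A.ncard = 2 → ∃ z, z ∈ A := by
    intro A hA
    apply Set.nonempty_of_ncard_ne_zero
    omega
  have hexL : ∀ {A : Set (Set ℂ)}, A.ncard = 2 → ∃ z, z ∈ A := by
    intro A hA
    apply Set.nonempty_of_ncard_ne_zero
    omega
  have hl0 : ∀ l : Set ℂ, l ∈ LO m (d 0) (β 0) → ∀ h : l ∈ L,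
      (levi P L).Reachable x0 (.inr ⟨l, h⟩) := by
    intro l hl h
    obtain ⟨z, hz1, hz2⟩ := hex (hA.lineP 0 l hl).1
    exact (hr0 z hz1 (hmemP 0 z hz1)).trans (hadj ⟨z, hmemP 0 z hz1⟩ ⟨l, h⟩ hz2).reachable
  have hl2 : ∀ l : Set ℂ, l ∈ LO m (d 2) (β 2) → ∀ h : l ∈ L,
      (levi P L).Reachable x0 (.inr ⟨l, h⟩) := by
    intro l hl h
    obtain ⟨z, hz1, hz2⟩ := hex (hA.lineP 2 l hl).2.1
    exact (hr0 z hz1 (hmemP 0 z hz1)).trans (hadj ⟨z, hmemP 0 z hz1⟩ ⟨l, h⟩ hz2).reachable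
  -- points of the orbits 1 and 2
  have hr1 : ∀ p : ℂ, p ∈ PO m (R 1) (α 1) → ∀ h : p ∈ P,
      (levi P L).Reachable x0 (.inl ⟨p, h⟩) := by
    intro p hp h
    obtain ⟨l, hl1, hl2⟩ := hexL (hA.pointL 1 p hp).2.1
    exact (hl0 l hl1 (hmemL 0 l hl1)).trans (hadj ⟨p, h⟩ ⟨l, hmemL 0 l hl1⟩ hl2).symm.reachable
  have hr2 : ∀ p : ℂ, p ∈ PO m (R 2) (α 2) → ∀ h : p ∈ P,
      (levi P L).Reachable x0 (.inl ⟨p, h⟩) := by
    intro p hp h
    obtain ⟨l, hl1, hl3⟩ := hexL (hA.pointL 2 p hp).1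
    exact (hl2 l hl1 (hmemL 2 l hl1)).trans (hadj ⟨p, h⟩ ⟨l, hmemL 2 l hl1⟩ hl3).symm.reachable
  have hl1 : ∀ l : Set ℂ, l ∈ LO m (d 1) (β 1) → ∀ h : l ∈ L,
      (levi P L).Reachable x0 (.inr ⟨l, h⟩) := by
    intro l hl h
    obtain ⟨z, hz1, hz2⟩ := hex (hA.lineP 1 l hl).1
    exact (hr1 z hz1 (hmemP 1 z hz1)).trans (hadj ⟨z, hmemP 1 z hz1⟩ ⟨l, h⟩ hz2).reachable
  have hall : ∀ x : P ⊕ L, (levi P L).Reachable x0 x := by
    rintro (⟨p, hp⟩ | ⟨l, hl⟩)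
    · obtain ⟨j, hj⟩ := Set.mem_iUnion.1 hp
      fin_cases j
      · exact hr0 p hj hp
      · exact hr1 p hj hp
      · exact hr2 p hj hp
    · obtain ⟨j, hj⟩ := Set.mem_iUnion.1 hl
      fin_cases j
      · exact hl0 l hj hl
      · exact hl1 l hj hl
      · exact hl2 l hj hl
  have : Nonempty (P ⊕ L) := ⟨x0⟩
  exact SimpleGraph.Connected.mk (fun x y => (hall x).symm.trans (hall y))

end Pool.Agent.Q151.Astral
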