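import Mathlib
import Pool.Agent.Q151.Astral.Geo

namespace Pool.Agent.Q151.Astral

open ComplexConjugate Polynomial

theorem ee_one_pow (m : ℕ) (k : ℕ) : ee m 1 ^ k = ee m k := by
  unfold ee
  rw [← Complex.exp_nat_mul]
  congr 1
  push_cast
  ring

theorem ee_primitive {m : ℕ} (hm : 0 < m) : IsPrimitiveRoot (ee m 1) (2 * m) := by
  have h := Complex.isPrimitiveRoot_exp (2 * m) (by omega)
  convert h using 1
  unfold ee
  congr 1
  push_cast
  have hmc : (m : ℂ) ≠ 0 := by exact_mod_cast hm.ne'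
  field_simp

theorem ee_sum {m : ℕ} (hm : 0 < m) (j y : ℕ) :
    (ee m 1 ^ j) ^ y + (ee m 1 ^ j) ^ ((2 * m - 1) * y) =
      ((2 * Real.cos (((j * y : ℕ) : ℝ) * Real.pi / m) : ℝ) : ℂ) := by
  rw [← pow_mul, ← pow_mul, ee_one_pow, ee_one_pow]
  have h1 : ee m ((j * ((2 * m - 1) * y) : ℕ) : ℤ) = ee m (-((j * y : ℕ) : ℤ)) := by
    rw [ee_eq_iff hm]
    refine ⟨j * y, ?_⟩
    have : ((2 * m - 1 : ℕ) : ℤ) = 2 * m - 1 := by
      rw [Nat.cast_sub (by omega)]; push_cast; ring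
    push_cast [this]
    ring
  rw [h1, ← ee_conj, Complex.add_conj, ee_re]
  push_cast
  rfl

theorem cosrel {m : ℕ} (hm : 0 < m) {a b c e : ℕ}
    (h : Real.cos ((a : ℝ) * Real.pi / m) * Real.cos ((b : ℝ) * Real.pi / m) =
      Real.cos ((c : ℝ) * Real.pi / m) * Real.cos ((e : ℝ) * Real.pi / m))
    {k : ℕ} (hk : k.Coprime (2 * m)) :
    Real.cos (((k * a : ℕ) : ℝ) * Real.pi / m) * Real.cos (((k * b : ℕ) : ℝ) * Real.pi / m) =
      Real.cos (((k * c : ℕ) : ℝ) * Real.pi / m) * Real.cos (((k * e : ℕ) : ℝ) * Real.pi / m) := by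
  set F : ℤ[X] := (X ^ a + X ^ ((2 * m - 1) * a)) * (X ^ b + X ^ ((2 * m - 1) * b)) -
    (X ^ c + X ^ ((2 * m - 1) * c)) * (X ^ e + X ^ ((2 * m - 1) * e)) with hF
  have hev : ∀ j : ℕ, aeval (ee m 1 ^ j) F =
      ((4 * (Real.cos (((j * a : ℕ) : ℝ) * Real.pi / m) * Real.cos (((j * b : ℕ) : ℝ) * Real.pi / m) -
      Real.cos (((j * c : ℕ) : ℝ) * Real.pi / m) * Real.cos (((j * e : ℕ) : ℝ) * Real.pi / m)) : ℝ) : ℂ) := by
    intro j
    rw [hF]
    simp only [map_sub, map_mul, map_add, map_pow, aeval_X]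
    rw [ee_sum hm, ee_sum hm, ee_sum hm, ee_sum hm]
    push_cast
    ring
  have hprim := ee_primitive hm
  have h0 : aeval (ee m 1) F = 0 := by
    have := hev 1
    rw [pow_one] at this
    rw [this]
    simp only [one_mul]
    rw [h, sub_self, mul_zero]
    simp
  have hint : IsIntegral ℤ (ee m 1) := hprim.isIntegral (by omega)
  have hdvd : minpoly ℤ (ee m 1) ∣ F := minpoly.isIntegrallyClosed_dvd hint h0
  rw [hprim.minpoly_eq_pow_coprime hk] at hdvd
  obtain ⟨G, hG⟩ := hdvd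
  have h1 : aeval (ee m 1 ^ k) F = 0 := by
    rw [hG, map_mul, minpoly.aeval, zero_mul]
  rw [hev k] at h1
  have h2 : (4 * (Real.cos (((k * a : ℕ) : ℝ) * Real.pi / m) * Real.cos (((k * b : ℕ) : ℝ) * Real.pi / m) -
      Real.cos (((k * c : ℕ) : ℝ) * Real.pi / m) * Real.cos (((k * e : ℕ) : ℝ) * Real.pi / m)) : ℝ) = 0 := by
    exact_mod_cast h1
  linarith

/-! ### trigonometric facts.  `a = π / 30` (6 degrees). -/

open Real in
theorem cos72 : cos (2 * (π / 5)) = cos (π / 5) - 1 / 2 := by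
  rw [cos_two_mul, cos_pi_div_five]
  have h5 : (√5 : ℝ) ^ 2 = 5 := Real.sq_sqrt (by norm_num)
  linear_combination (1 / 8) * h5

open Real in
/-- `cos 6° cos 42° = cos 24° cos 36°` -/
theorem key_identity : cos (π / 30) * cos (7 * (π / 30)) = cos (4 * (π / 30)) * cos (6 * (π / 30)) := by
  have h1 : cos (π / 30) * cos (7 * (π / 30)) = (cos (8 * (π / 30)) + cos (6 * (π / 30))) / 2 := by
    have e1 : cos (8 * (π / 30)) = cos (7 * (π / 30) + π / 30) := by congr 1; ring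
    have e2 : cos (6 * (π / 30)) = cos (7 * (π / 30) - π / 30) := by congr 1; ring
    rw [e1, e2, cos_add, cos_sub]
    ring
  have h2 : cos (4 * (π / 30)) * cos (6 * (π / 30)) = (cos (10 * (π / 30)) + cos (2 * (π / 30))) / 2 := by
    have e1 : cos (10 * (π / 30)) = cos (6 * (π / 30) + 4 * (π / 30)) := by congr 1; ring
    have e2 : cos (2 * (π / 30)) = cos (6 * (π / 30) - 4 * (π / 30)) := by congr 1; ring
    rw [e1, e2, cos_add, cos_sub]
    ring
  have h3 : cos (10 * (π / 30)) = 1 / 2 := by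
    rw [← cos_pi_div_three]; congr 1; ring
  have h4 : cos (8 * (π / 30)) + cos (2 * (π / 5)) = cos (2 * (π / 30)) := by
    have e1 : cos (8 * (π / 30)) = cos (10 * (π / 30) - 2 * (π / 30)) := by congr 1; ring
    have e2 : cos (2 * (π / 5)) = cos (10 * (π / 30) + 2 * (π / 30)) := by congr 1; ring
    rw [e1, e2, cos_add, cos_sub, h3]
    ring
  have h5 : cos (6 * (π / 30)) = cos (π / 5) := by congr 1; ring
  rw [h1, h2, h3, h5]
  have := cos72
  linarith

open Real in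
theorem cos_lt {x y : ℝ} (h0 : 0 ≤ x) (hxy : x < y) (hy : y ≤ π) : cos y < cos x :=
  cos_lt_cos_of_nonneg_of_le_pi h0 hy hxy

open Real in
theorem cos_pos' {x : ℝ} (h0 : 0 ≤ x) (hy : x < π / 2) : 0 < cos x :=
  cos_pos_of_mem_Ioo ⟨by linarith [pi_pos], hy⟩

open Real in
/-- `cos 6° * cos 6° > cos 24°` -/
theorem ineq1 : cos (4 * (π / 30)) < cos (π / 30) * cos (π / 30) := by
  have h1 : cos (4 * (π / 30)) = 2 * cos (2 * (π / 30)) ^ 2 - 1 := by
    rw [← cos_two_mul]; congr 1; ring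
  have h2 : cos (2 * (π / 30)) = 2 * cos (π / 30) ^ 2 - 1 := by
    rw [← cos_two_mul]
  have h3 : cos (2 * (π / 30)) < cos 0 := cos_lt le_rfl (by positivity) (by linarith [pi_pos])
  have h4 : 0 < cos (2 * (π / 30)) := cos_pos' (by positivity) (by linarith [pi_pos])
  rw [cos_zero] at h3
  have h5 : cos (π / 30) * cos (π / 30) = (1 + cos (2 * (π / 30))) / 2 := by
    rw [h2]; ring
  rw [h1, h5]
  nlinarith

open Real in
/-- `cos 12° * cos 12° > cos 42°` -/
theorem ineq2 : cos (7 * (π / 30)) < cos (2 * (π / 30)) * cos (2 * (π / 30)) := by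
  have h1 : cos (4 * (π / 30)) = 2 * cos (2 * (π / 30)) ^ 2 - 1 := by
    rw [← cos_two_mul]; congr 1; ring
  have h3 : cos (4 * (π / 30)) < cos 0 := cos_lt le_rfl (by positivity) (by linarith [pi_pos])
  rw [cos_zero] at h3
  have h4 : cos (7 * (π / 30)) < cos (4 * (π / 30)) :=
    cos_lt (by positivity) (by linarith [pi_pos]) (by linarith [pi_pos])
  nlinarith

end Pool.Agent.Q151.Astral
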